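import Mathlib
import Pool.Agent.Q110.OC.FamThr
import Pool.Agent.Q110.OC.Shift
import Pool.Agent.Q110.OC.Lit

/-!
The directed chromatic threshold does not control the directed chromatic profile: for every
`k ≥ 2` some connected graph has two orientations whose thresholds are ordered one way and whose
profiles at `k` are ordered the other way. The same happens when the profile is taken over all
digraphs and not only over the large ones.

The graphs are explicit. In the first part the graph is a 5-cycle with `k - 1` leaves at each of
two vertices at distance two (`Leafy (k - 1)`); `R` is a `C_5'` with out-leaves and `R'` is a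
`C_5'''` with in-leaves at its two sources. In the second part it is a star with twelve leaves
whose centre is joined to a 4-cycle (`Star`).
-/

namespace Pool.Agent.Results.MP_0ac583_co.ThresholdVersusProfile

open Pool.Agent.Q110.OC

theorem result :
    (∀ k : ℕ, 2 ≤ k → ∃ (W : Type) (_ : Fintype W) (H : SimpleGraph W) (R R' : W → W → Prop),
      Fintype.card W = 2 * k + 3 ∧ H.Connected ∧
      IsOrientation H R ∧ IsOrientation H R' ∧
      threshold R' = 0 ∧ 1 / 16 ≤ threshold R ∧
      (∀ l : ℕ, 2 ≤ l → profile R l ≤ 99 / 200) ∧ 1 / 2 ≤ profile R' k) ∧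
    (∃ (W : Type) (_ : Fintype W) (H : SimpleGraph W) (R R' : W → W → Prop),
      Fintype.card W = 17 ∧ H.Connected ∧
      IsOrientation H R ∧ IsOrientation H R' ∧
      threshold R' = 0 ∧ 1 / 3 ≤ threshold R ∧
      profileAll R 16 ≤ 23 / 34 ∧ 12 / 17 ≤ profileAll R' 16) := by
  constructor
  · intro k hk
    refine ⟨_, inferInstance, Leafy (k - 1), H₁ (k - 1), H₂ (k - 1), ?_, connected_Leafy _,
      orient_H₁ _, orient_H₂ _, threshold_H₂ _, threshold_H₁ _, fun l hl => profile_H₁ _ l hl, ?_⟩
    · simp only [Fintype.card_sum, Fintype.card_fin]
      omega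
    · have h := profile_H₂ (k - 1)
      rwa [Nat.sub_add_cancel (by omega : 1 ≤ k)] at h
  · exact ⟨_, inferInstance, Star, R₃, R₄, by simp, connected_Star, orient₃, orient₄,
      threshold₄, threshold₃, profile₃, profile₄⟩

end Pool.Agent.Results.MP_0ac583_co.ThresholdVersusProfile
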